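import Pool.Agent.GBS.StmtsB
import Pool.Agent.Helper36_RF.Chr
import Pool.Agent.Helper5_RF.Cyl
import Pool.Agent.Helper14_MVS.SDF
import Pool.Agent.Helper23_MVS.BR3

/-!
# GBS: continuity and homogeneity of the Pontryagin density (row CNT, MP_33f2b9_gt)
-/

noncomputable section

open scoped ContDiff Topology RealInnerProductSpace
open Set MeasureTheory Matrix

namespace Pool.Agent.GBS.H11

open Pool.Agent.RF Pool.Agent.MVS

theorem eps_cont (i j k l : Fin 5) : Continuous fun x : E5 => eps (cf x) i j k l := by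
  unfold eps
  refine Continuous.matrix_det (continuous_matrix fun a b => ?_)
  refine Fin.cases ?_ (fun a => ?_) a
  · show Continuous fun x : E5 => x b
    exact (EuclideanSpace.proj b : E5 →L[ℝ] ℝ).continuous
  · simp only [Matrix.of_apply, Matrix.cons_val_succ]
    exact continuous_const

theorem eps_smul (c : ℝ) (u : Fin 5 → ℝ) (i j k l : Fin 5) :
    eps (c • u) i j k l = c * eps u i j k l := by
  unfold eps
  have h : ∀ w : Fin 5 → ℝ, (Matrix.of ![w, Pi.single i 1, Pi.single j 1, Pi.single k 1,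
      Pi.single l 1] : Matrix (Fin 5) (Fin 5) ℝ) =
      (Matrix.of ![u, Pi.single i 1, Pi.single j 1, Pi.single k 1,
        Pi.single l 1] : Matrix (Fin 5) (Fin 5) ℝ).updateRow 0 w := by
    intro w
    ext a b
    refine Fin.cases ?_ (fun a => ?_) a
    · simp
    · rw [Matrix.updateRow_ne (Fin.succ_ne_zero a)]
      simp only [Matrix.of_apply, Matrix.cons_val_succ]
  rw [h (c • u), Matrix.det_updateRow_smul, ← h u]

theorem cf_smul (c : ℝ) (x : E5) : cf (c • x) = c • cf x := by
  ext i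
  rfl

theorem riem_cont {G : E5 → Bil E5} (hG : IsMetricOn G (Om (Fin 5))) (u v w : E5) :
    ContinuousOn (fun x => riem G x u v w) (Om (Fin 5)) := by
  unfold riem
  have h1 : ∀ a b c : E5,
      ContinuousOn (fun x => fderiv ℝ (fun y => chris G y a b) x c) (Om (Fin 5)) := fun a b c =>
    ((hG.contDiffOn_chris' a b).continuousOn_fderiv_of_isOpen hG.isOpen (by simp)).clm_apply
      continuousOn_const
  have h2 : ∀ a b c : E5,
      ContinuousOn (fun x => chris G x c (chris G x a b)) (Om (Fin 5)) := by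
    intro a b c
    have h3 : ContinuousOn (fun x : E5 => ((x, c, chris G x a b) : E5 × E5 × E5)) (Om (Fin 5)) :=
      continuousOn_id.prodMk (continuousOn_const.prodMk (hG.contDiffOn_chris' a b).continuousOn)
    exact hG.contDiffOn_chris.continuousOn.comp h3 (fun y hy => ⟨hy, trivial⟩)
  exact (((h1 v w u).sub (h1 u w v)).add (h2 v w u)).sub (h2 u w v)

theorem Rm_cont {G : E5 → Bil E5} (hG : IsMetricOn G (Om (Fin 5))) (i j a b : Fin 5) :
    ContinuousOn (fun x => Rm G x i j a b) (Om (Fin 5)) := by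
  show ContinuousOn (fun x => (riem G x (eb i) (eb j) (eb b)) a) (Om (Fin 5))
  exact (EuclideanSpace.proj a : E5 →L[ℝ] ℝ).continuous.comp_continuousOn (riem_cont hG _ _ _)

theorem Rm_smul {G : E5 → Bil E5} (hG : IsCyl G) {x : E5} (hx : x ∈ Om (Fin 5)) {c : ℝ}
    (hc : 0 < c) (i j : Fin 5) : Rm G (c • x) i j = (c ^ 2)⁻¹ • Rm G x i j := by
  ext a b
  show (riem G (c • x) (eb i) (eb j) (eb b)) a = _
  rw [Pool.Agent.RF.H5.cyl_riem_hom chrStatement hG hx hc]
  rfl

theorem pnt_cont {G : E5 → Bil E5} (hG : IsCyl G) : ContinuousOn (pnt G) (Om (Fin 5)) := by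
  unfold pnt
  refine ContinuousOn.mul ?_ ?_
  · exact (continuous_norm.pow 2).continuousOn.inv₀ fun x hx => pow_ne_zero 2 (norm_ne_zero_iff.2 hx)
  · unfold ctr
    refine continuousOn_finsetSum _ fun i _ => continuousOn_finsetSum _ fun j _ =>
      continuousOn_finsetSum _ fun k _ => continuousOn_finsetSum _ fun l _ => ?_
    refine ContinuousOn.mul (eps_cont i j k l).continuousOn ?_
    simp only [Matrix.trace, Matrix.diag, Matrix.mul_apply]
    exact continuousOn_finsetSum _ fun a _ => continuousOn_finsetSum _ fun b _ =>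
      (Rm_cont hG.metric i j a b).mul (Rm_cont hG.metric k l b a)

theorem pnt_smul {G : E5 → Bil E5} (hG : IsCyl G) {c : ℝ} (hc : 0 < c) {x : E5}
    (hx : x ∈ Om (Fin 5)) : pnt G (c • x) = (c ^ 5)⁻¹ * pnt G x := by
  unfold pnt ctr
  have h1 : ∀ i j k l, eps (cf (c • x)) i j k l *
      (Rm G (c • x) i j * Rm G (c • x) k l).trace =
      (c ^ 3)⁻¹ * (eps (cf x) i j k l * (Rm G x i j * Rm G x k l).trace) := by
    intro i j k l
    rw [cf_smul, eps_smul, Rm_smul hG hx hc, Rm_smul hG hx hc, Matrix.smul_mul, Matrix.mul_smul,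
      smul_smul, Matrix.trace_smul, smul_eq_mul]
    field_simp
  simp only [h1, ← Finset.mul_sum]
  rw [norm_smul, Real.norm_of_nonneg hc.le]
  have hn : ‖x‖ ≠ 0 := norm_ne_zero_iff.2 hx
  field_simp

theorem slab_sub : slab (Fin 5) ⊆ Metric.closedBall (0 : E5) (Real.exp 1) \ Metric.ball 0 1 := by
  intro x hx
  have h1 : 1 < ‖x‖ := hx.1
  have h2 : ‖x‖ < Real.exp 1 := hx.2
  refine ⟨by simpa using h2.le, ?_⟩
  simpa using h1.le

theorem ann_cpt : IsCompact (Metric.closedBall (0 : E5) (Real.exp 1) \ Metric.ball 0 1) :=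
  (isCompact_closedBall _ _).diff Metric.isOpen_ball

theorem ann_sub : Metric.closedBall (0 : E5) (Real.exp 1) \ Metric.ball 0 1 ⊆ Om (Fin 5) := by
  intro x hx h
  apply hx.2
  rw [h]
  simp

theorem integrable_slab {f : E5 → ℝ} (hf : ContinuousOn f (Om (Fin 5))) :
    IntegrableOn f (slab (Fin 5)) :=
  ((hf.mono ann_sub).integrableOn_compact ann_cpt).mono_set slab_sub

theorem cnt : CntStmt := by
  intro G hG
  have hs : ContinuousOn (fun x => sd (G x)) (Om (Fin 5)) :=
    Pool.Agent.MVS.H14.sd_cont.comp_continuousOn hG.metric.smooth.continuousOn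
  exact ⟨pnt_cont hG, hs, integrable_slab hs, fun c hc x hx => pnt_smul hG hc hx⟩

end Pool.Agent.GBS.H11
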